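import Mathlib
import Pool.Agent.R65.OM.Final

set_option autoImplicit false

namespace Pool.Agent.Results.MP_075e78_co.AlmostEveryMatching

open Filter Topology

/-- `M` is an ordered matching on `n` vertices (the vertex set is `Fin n` with its natural order):
every vertex has exactly one neighbour. -/
def IsOrderedMatching {n : ℕ} (M : SimpleGraph (Fin n)) : Prop := ∀ v, ∃! w, M.Adj v w

/-- The vertex order can be cut into `k` consecutive intervals (the fibres of a monotone map to
`Fin k`), none of which contains both ends of an edge. -/
def HasIntervalColouring {n : ℕ} (M : SimpleGraph (Fin n)) (k : ℕ) : Prop :=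
  ∃ f : Fin n → Fin k, Monotone f ∧ ∀ v w, M.Adj v w → f v ≠ f w

/-- The set of all ordered matchings on `n` vertices whose interval chromatic number (the least
number of intervals in such a cutting) is `k`. -/
def matchingsWithChi (n k : ℕ) : Set (SimpleGraph (Fin n)) :=
  {M | IsOrderedMatching M ∧ IsLeast {j | HasIntervalColouring M j} k}

/-- `H` is contained in `G` as an ordered graph: a strictly increasing map of the vertices sends
edges of `H` to edges of `G`. -/
def OrdContained {m N : ℕ} (H : SimpleGraph (Fin m)) (G : SimpleGraph (Fin N)) : Prop :=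
  ∃ φ : Fin m → Fin N, StrictMono φ ∧ ∀ v w, H.Adj v w → G.Adj (φ v) (φ w)

/-- Every red/blue colouring of the edges of the ordered complete graph on `N` vertices (`red` is
the graph of the red edges and its complement that of the blue ones) has a red ordered copy of `M`
or a blue ordered triangle; the ordered Ramsey number `r_<(M, K_3)` is the least such `N`. -/
def ArrowsTriangle {n : ℕ} (M : SimpleGraph (Fin n)) (N : ℕ) : Prop :=
  ∀ red : SimpleGraph (Fin N), OrdContained M red ∨ OrdContained (⊤ : SimpleGraph (Fin 3)) redᶜ

/-- For every `k ≥ 3`, almost every ordered matching `M` on `n = 2 m` vertices with interval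
chromatic number `k` satisfies `r_<(M, K_3) ≤ 40 k n ^ (2 - 1 / 20)`: the fraction of the
matchings for which this holds tends to `1` as `n → ∞`. -/
theorem result (k : ℕ) (hk : 3 ≤ k) :
    Tendsto (fun m : ℕ =>
      (({M : SimpleGraph (Fin (2 * m)) | M ∈ matchingsWithChi (2 * m) k ∧
          ∃ N : ℕ, (N : ℝ) ≤ 40 * k * ((2 * m : ℕ) : ℝ) ^ ((2 : ℝ) - 1 / 20) ∧
            ArrowsTriangle M N}.ncard : ℝ) / ((matchingsWithChi (2 * m) k).ncard : ℝ)))
      atTop (𝓝 1) :=
  Pool.Agent.R65.OM.main k (by omega)

end Pool.Agent.Results.MP_075e78_co.AlmostEveryMatching
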